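import Pool.Agent.Helper54.FP.TDefs
import Pool.Agent.Helper87.FP.HomInf

/-!
# TJ-07: equivariant homomorphisms from the complement ring to iterated Laurent series
-/

set_option autoImplicit false

namespace Pool.Agent.Helper54.FP

theorem tj07_ext_map_right {A B B' : Type} [CommRing A] [CommRing B] [CommRing B']
    (φ : A →+* PowerSeries B) (σ : B →+* B') (F : PowerSeries A) :
    ext ((PowerSeries.map σ).comp φ) F = PowerSeries.map σ (ext φ F) := by
  ext n
  rw [coeff_ext, PowerSeries.coeff_map, coeff_ext, map_sum]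
  refine Finset.sum_congr rfl fun ij _ => ?_
  rw [RingHom.comp_apply, PowerSeries.coeff_map]

theorem tj07_ext_map_left {A A' B : Type} [CommRing A] [CommRing A'] [CommRing B]
    (φ : A' →+* PowerSeries B) (σ : A →+* A') (F : PowerSeries A) :
    ext φ (PowerSeries.map σ F) = ext (φ.comp σ) F := by
  ext n
  rw [coeff_ext, coeff_ext]
  refine Finset.sum_congr rfl fun ij _ => ?_
  rw [RingHom.comp_apply, PowerSeries.coeff_map]

theorem tj07_swp_rescale {A : Type} [CommRing A] (c : A) (F : PowerSeries (PowerSeries A)) :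
    swp A (PowerSeries.map (PowerSeries.rescale c) F) =
      PowerSeries.rescale (PowerSeries.C c) (swp A F) := by
  ext i j
  rw [coeff_swp, PowerSeries.coeff_map, PowerSeries.coeff_rescale, PowerSeries.coeff_rescale,
    ← map_pow, PowerSeries.coeff_C_mul, coeff_swp]

theorem tj07_rescale_map {A B : Type} [CommRing A] [CommRing B] (f : A →+* B) (a : A)
    (Q : PowerSeries A) :
    PowerSeries.rescale (f a) (PowerSeries.map f Q) =
      PowerSeries.map f (PowerSeries.rescale a Q) := by
  ext n
  rw [PowerSeries.coeff_rescale, PowerSeries.coeff_map, PowerSeries.coeff_map,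
    PowerSeries.coeff_rescale, map_mul, map_pow]

section

variable {k : Type} [Field k]

theorem tj07_uK_inv (ζ : kˣ) : (((uK k ζ)⁻¹ : (KK k)ˣ) : KK k) =
    algebraMap (PowerSeries k) (KK k) (PowerSeries.C ((ζ⁻¹ : kˣ) : k)) := by
  rw [homInf_C, uK, ← map_inv]
  rfl

theorem tj07_sg (φ : Polynomial k →+* PowerSeries (PowerSeries k)) (ζ : kˣ) (F : Pk k) :
    sg (uK k ζ) (homInfG φ F) =
      homInfG ((PowerSeries.map (PowerSeries.rescale ((ζ⁻¹ : kˣ) : k))).comp φ) F := by
  rw [homInfG_apply, homInfG_apply, sg, lK_algebraMap, RingHom.comp_apply, tj07_ext_map_right,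
    tj07_swp_rescale, tj07_uK_inv, tj07_rescale_map]

theorem tj07_hom_ext {S : Type} [CommRing S] {f g : R2 k →+* S}
    (h : ∀ F : Pk k, f (algebraMap (Pk k) (R2 k) F) = g (algebraMap (Pk k) (R2 k) F)) : f = g := by
  refine IsLocalization.ringHom_ext
    (Submonoid.powers (PowerSeries.X * PowerSeries.C Polynomial.X : Pk k)) ?_
  ext1 F
  exact h F

theorem exists_hAT {k : Type} [Field k] (a m : ℕ) (hm : 0 < m) :
    ∃ h : R2 k →+* LaurentSeries (KK k), h.comp (c2 k) = HahnSeries.C ∧
      h (w2 k) * (1 - (HahnSeries.single (1 : ℤ) (1 : KK k) : LaurentSeries (KK k)) ^ m) =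
        HahnSeries.C ((HahnSeries.single (1 : ℤ) (1 : k) : KK k) ^ a) *
          (HahnSeries.single (1 : ℤ) (1 : KK k) : LaurentSeries (KK k)) ^ m ∧
      ∀ ζ : kˣ, (ζ : k) ^ m = 1 → (sg (uK k ζ)).comp h = h := by
  have hcc : PowerSeries.constantCoeff (1 - PowerSeries.X ^ m : PowerSeries k) ≠ 0 := by
    rw [map_sub, map_one, map_pow, PowerSeries.constantCoeff_X, zero_pow (by omega), sub_zero]
    exact one_ne_zero
  set g : PowerSeries k := PowerSeries.X ^ m * (1 - PowerSeries.X ^ m)⁻¹ with hg
  have hgm : g * (1 - PowerSeries.X ^ m) = PowerSeries.X ^ m := by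
    rw [hg, mul_assoc, PowerSeries.inv_mul_cancel _ hcc, mul_one]
  set φ : Polynomial k →+* PowerSeries (PowerSeries k) :=
    Polynomial.eval₂RingHom ((PowerSeries.C).comp PowerSeries.C)
      (PowerSeries.X ^ a * PowerSeries.C g) with hφ
  have hC : ∀ c, φ (Polynomial.C c) = PowerSeries.C (PowerSeries.C c) := by
    intro c
    rw [hφ, Polynomial.coe_eval₂RingHom, Polynomial.eval₂_C, RingHom.comp_apply]
  have hw : homInfG φ (PowerSeries.C Polynomial.X) *
      (1 - (HahnSeries.single (1 : ℤ) (1 : KK k) : LaurentSeries (KK k)) ^ m) =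
      HahnSeries.C ((HahnSeries.single (1 : ℤ) (1 : k) : KK k) ^ a) *
        (HahnSeries.single (1 : ℤ) (1 : KK k) : LaurentSeries (KK k)) ^ m := by
    have e1 : (1 - (HahnSeries.single (1 : ℤ) (1 : KK k) : LaurentSeries (KK k)) ^ m) =
        algebraMap (PowerSeries (KK k)) (LaurentSeries (KK k))
          (PowerSeries.map (algebraMap (PowerSeries k) (KK k)) (swp k
            (PowerSeries.C (1 - PowerSeries.X ^ m)))) := by
      simp only [map_sub, map_one, map_pow, swp_C, PowerSeries.map_X, homInf_X]
    rw [e1, homInfG_apply, ← map_mul, ← map_mul, ← map_mul, ext_C, hφ,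
      Polynomial.coe_eval₂RingHom, Polynomial.eval₂_X, mul_assoc, ← map_mul, hgm]
    simp only [map_mul, map_pow, swp_X, swp_C, PowerSeries.map_X, PowerSeries.map_C, homInf_X,
      homInf_C]
  obtain ⟨h, h1, h2⟩ := homInf_exists φ hC (by
    intro h0
    rw [h0, zero_mul] at hw
    refine mul_ne_zero ?_ (pow_ne_zero _ (HahnSeries.single_ne_zero one_ne_zero)) hw.symm
    rw [Ne, map_eq_zero_iff _ HahnSeries.C_injective]
    exact pow_ne_zero _ (HahnSeries.single_ne_zero one_ne_zero))
  refine ⟨h, h2, by rw [w2, h1, hw], fun ζ hζ => ?_⟩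
  have hz : (((ζ⁻¹ : kˣ) : k)) ^ m = 1 := by
    rw [← Units.val_pow_eq_pow_val, inv_pow, Units.val_eq_one, inv_eq_one]
    exact Units.ext (by rw [Units.val_pow_eq_pow_val, hζ, Units.val_one])
  have hX : PowerSeries.rescale ((ζ⁻¹ : kˣ) : k) (PowerSeries.X ^ m) = PowerSeries.X ^ m := by
    rw [map_pow, PowerSeries.rescale_X, mul_pow, ← map_pow, hz, map_one, one_mul]
  have hgr : PowerSeries.rescale ((ζ⁻¹ : kˣ) : k) g = g := by
    have e := congrArg (PowerSeries.rescale ((ζ⁻¹ : kˣ) : k)) hgm
    rw [map_mul, map_sub, map_one, hX] at e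
    have hne : (1 - PowerSeries.X ^ m : PowerSeries k) ≠ 0 := by
      intro h0
      rw [h0, map_zero] at hcc
      exact hcc rfl
    exact mul_right_cancel₀ hne (e.trans hgm.symm)
  have hφr : (PowerSeries.map (PowerSeries.rescale ((ζ⁻¹ : kˣ) : k))).comp φ = φ := by
    refine Polynomial.ringHom_ext ?_ ?_
    · intro c
      rw [RingHom.comp_apply, hC, PowerSeries.map_C]
      congr 1
      ext n
      rw [PowerSeries.coeff_rescale, PowerSeries.coeff_C]
      split_ifs with hn
      · rw [hn, pow_zero, one_mul]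
      · rw [mul_zero]
    · rw [RingHom.comp_apply, hφ, Polynomial.coe_eval₂RingHom, Polynomial.eval₂_X, map_mul,
        map_pow, PowerSeries.map_X, PowerSeries.map_C, hgr]
  refine tj07_hom_ext fun F => ?_
  rw [RingHom.comp_apply, h1, tj07_sg, hφr]

theorem exists_hBT {k : Type} [Field k] :
    ∃ h : R2 k →+* LaurentSeries (KK k), Function.Injective h ∧ h.comp (c2 k) = HahnSeries.C ∧
      h (w2 k) = HahnSeries.C (HahnSeries.single (1 : ℤ) (1 : k) : KK k) *
        (HahnSeries.single (1 : ℤ) (1 : KK k) : LaurentSeries (KK k)) ∧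
      ∀ ζ : kˣ, (sg (uK k ζ)).comp h = h.comp (s2 k ζ) := by
  set φ : Polynomial k →+* PowerSeries (PowerSeries k) :=
    Polynomial.eval₂RingHom ((PowerSeries.C).comp PowerSeries.C)
      (PowerSeries.X * PowerSeries.C PowerSeries.X) with hφ
  have hC : ∀ c, φ (Polynomial.C c) = PowerSeries.C (PowerSeries.C c) := by
    intro c
    rw [hφ, Polynomial.coe_eval₂RingHom, Polynomial.eval₂_C, RingHom.comp_apply]
  have hw : homInfG φ (PowerSeries.C Polynomial.X) =
      HahnSeries.C (HahnSeries.single (1 : ℤ) (1 : k) : KK k) *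
        (HahnSeries.single (1 : ℤ) (1 : KK k) : LaurentSeries (KK k)) := by
    rw [homInfG_apply, ext_C, hφ, Polynomial.coe_eval₂RingHom, Polynomial.eval₂_X]
    simp only [map_mul, swp_X, swp_C, PowerSeries.map_X, PowerSeries.map_C, homInf_X,
      homInf_C]
  -- the coefficients of `φ q`
  have hφc : ∀ (q : Polynomial k) (n j : ℕ), PowerSeries.coeff j (PowerSeries.coeff n (φ q)) =
      if n = j then q.coeff j else 0 := by
    intro q n j
    induction q using Polynomial.induction_on' with
    | add p q hp hq =>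
      rw [map_add, map_add, map_add, hp, hq, Polynomial.coeff_add]
      split_ifs <;> simp
    | monomial i c =>
      have e : φ (Polynomial.monomial i c) =
          PowerSeries.C (PowerSeries.C c) * (PowerSeries.C (PowerSeries.X ^ i) *
            PowerSeries.X ^ i) := by
        rw [hφ, Polynomial.coe_eval₂RingHom, Polynomial.eval₂_monomial, RingHom.comp_apply,
          mul_pow, map_pow, mul_comm (PowerSeries.X ^ i)]
      rw [e, PowerSeries.coeff_C_mul, PowerSeries.coeff_C_mul, PowerSeries.coeff_C_mul,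
        PowerSeries.coeff_X_pow, Polynomial.coeff_monomial]
      by_cases h1 : n = i
      · rw [if_pos h1, mul_one, PowerSeries.coeff_X_pow]
        by_cases h2 : n = j
        · rw [if_pos (by omega), if_pos h2, if_pos (by omega), mul_one]
        · rw [if_neg (by omega), if_neg h2, mul_zero]
      · rw [if_neg h1, mul_zero, map_zero, mul_zero]
        by_cases h2 : n = j
        · rw [if_pos h2, if_neg (by omega)]
        · rw [if_neg h2]
  have hext : ∀ (F : Pk k) (n j : ℕ), PowerSeries.coeff j (PowerSeries.coeff (n + j) (ext φ F)) =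
      (PowerSeries.coeff n F).coeff j := by
    intro F n j
    rw [coeff_ext, map_sum, Finset.sum_eq_single (n, j)]
    · rw [hφc, if_pos rfl]
    · rintro ⟨i1, i2⟩ hij hne
      rw [Finset.HasAntidiagonal.mem_antidiagonal] at hij
      dsimp only at hij ⊢
      rw [hφc, if_neg]
      rintro rfl
      apply hne
      have : i1 = n := by omega
      rw [this]
    · intro h
      exfalso
      apply h
      rw [Finset.HasAntidiagonal.mem_antidiagonal]
  have hinj : Function.Injective (homInfG φ) := by
    rw [injective_iff_map_eq_zero]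
    intro F hF
    rw [homInfG_apply, map_eq_zero_iff _ homInf_algInj] at hF
    ext n : 1
    rw [map_zero]
    ext j
    have h2 := congrArg (PowerSeries.coeff j) hF
    rw [PowerSeries.coeff_map, map_zero, map_eq_zero_iff _ homInf_algInj] at h2
    have h3 := congrArg (PowerSeries.coeff (n + j)) h2
    rw [coeff_swp, hext, map_zero] at h3
    rw [h3, Polynomial.coeff_zero]
  obtain ⟨h, h1, h2⟩ := homInf_exists φ hC (by
    rw [hw]
    refine mul_ne_zero ?_ (HahnSeries.single_ne_zero one_ne_zero)
    rw [Ne, map_eq_zero_iff _ HahnSeries.C_injective]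
    exact HahnSeries.single_ne_zero one_ne_zero)
  refine ⟨h, ?_, h2, by rw [w2, h1, hw], fun ζ => ?_⟩
  · rw [injective_iff_map_eq_zero]
    intro r hr
    obtain ⟨a, s, rfl⟩ := IsLocalization.exists_mk'_eq
      (Submonoid.powers (PowerSeries.X * PowerSeries.C Polynomial.X : Pk k)) r
    have h3 : h (IsLocalization.mk' (R2 k) a s) * h (algebraMap (Pk k) (R2 k) s) =
        h (algebraMap (Pk k) (R2 k) a) := by
      rw [← map_mul, IsLocalization.mk'_spec]
    rw [hr, zero_mul, h1] at h3
    have h4 : a = 0 := hinj (h3.symm.trans (map_zero _).symm)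
    rw [h4, IsLocalization.mk'_zero]
  · refine tj07_hom_ext fun F => ?_
    have e1 : s2 k ζ (algebraMap (Pk k) (R2 k) F) = algebraMap (Pk k) (R2 k) (sP k ζ F) := by
      unfold s2
      rw [IsLocalization.Away.lift_eq, RingHom.comp_apply]
    have e3 : (PowerSeries.map (PowerSeries.rescale ((ζ⁻¹ : kˣ) : k))).comp φ =
        φ.comp (sc ((ζ⁻¹ : kˣ) : k)) := by
      refine Polynomial.ringHom_ext ?_ ?_
      · intro c
        rw [RingHom.comp_apply, RingHom.comp_apply, hC, PowerSeries.map_C]
        have e2 : sc ((ζ⁻¹ : kˣ) : k) (Polynomial.C c) = Polynomial.C c := by simp [sc]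
        rw [e2, hC]
        congr 1
        ext n
        rw [PowerSeries.coeff_rescale, PowerSeries.coeff_C]
        split_ifs with hn
        · rw [hn, pow_zero, one_mul]
        · rw [mul_zero]
      · have e2 : sc ((ζ⁻¹ : kˣ) : k) Polynomial.X =
            Polynomial.C ((ζ⁻¹ : kˣ) : k) * Polynomial.X := by simp [sc]
        rw [RingHom.comp_apply, RingHom.comp_apply, e2, map_mul, hC, hφ,
          Polynomial.coe_eval₂RingHom, Polynomial.eval₂_X, map_mul, PowerSeries.map_X,
          PowerSeries.map_C, PowerSeries.rescale_X, map_mul]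
        ring
    rw [RingHom.comp_apply, RingHom.comp_apply, e1, h1, h1, tj07_sg, homInfG_apply, homInfG_apply,
      sP, tj07_ext_map_left, e3]

end

end Pool.Agent.Helper54.FP
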